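import Pool.Agent.Lib_MP_97158b_co_ins.Part

/-!
# MP_97158b_co: partitions with parts at most `n`, each part used at most `d - 1` times

For every `d ≥ 2` and all large `n` the numbers of these partitions of `k` do not decrease up to half of the degree
`N = (d - 1) n (n + 1) / 2`, strictly increase from `k = n` up to half of the degree, and are symmetric.
-/

set_option autoImplicit false

namespace Pool.Agent.Results.MP_97158b_co.StrictUnimodality

open Finset

/-- the product over `i = 1, ..., n` of `1 + t^i + t^(2 i) + ... + t^(i (d - 1))`, a polynomial with integer coefficients -/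
noncomputable def genPoly (n d : ℕ) : Polynomial ℤ := ∏ i ∈ Icc 1 n, ∑ j ∈ range d, Polynomial.X ^ (i * j)

/-- the partitions of `k` with all parts at most `n`, in which each part occurs less than `d` times -/
def boundedPartitions (n d k : ℕ) : Finset (Nat.Partition k) :=
  (univ : Finset (Nat.Partition k)).filter (fun p => ∀ i ∈ p.parts, i ≤ n ∧ p.parts.count i < d)

theorem genPoly_coeff (n d k : ℕ) : (genPoly n d).coeff k = ((Pool.Agent.Lib_MP_97158b_co.P d n).coeff k : ℤ) :=
  Pool.Agent.Lib_MP_97158b_co.coeff_int d n k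

theorem result : ∀ d : ℕ, 2 ≤ d →
    (∀ n N : ℕ, 2 * N = (d - 1) * (n * (n + 1)) → (genPoly n d).natDegree = N ∧
      (∀ k, (genPoly n d).coeff k = (boundedPartitions n d k).card) ∧
      ∀ k ≤ N, (genPoly n d).coeff (N - k) = (genPoly n d).coeff k) ∧
    ∃ n0 : ℕ, ∀ n : ℕ, n0 ≤ n → ∀ N : ℕ, 2 * N = (d - 1) * (n * (n + 1)) →
      (∀ k, 2 * (k + 1) ≤ N → (genPoly n d).coeff k ≤ (genPoly n d).coeff (k + 1)) ∧
      (∀ k, n ≤ k → 2 * (k + 1) ≤ N → (genPoly n d).coeff k < (genPoly n d).coeff (k + 1)) ∧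
      (∀ k, N ≤ 2 * k → k < N → (genPoly n d).coeff (k + 1) ≤ (genPoly n d).coeff k) ∧
      (∀ k, N ≤ 2 * k → k < N - n → (genPoly n d).coeff (k + 1) < (genPoly n d).coeff k) := by
  intro d hd
  have hd1 : 1 ≤ d := by omega
  have hdeg : ∀ n N : ℕ, 2 * N = (d - 1) * (n * (n + 1)) → Pool.Agent.Lib_MP_97158b_co.deg d n = N := by
    intro n N hN
    have := Pool.Agent.Lib_MP_97158b_co.two_deg d n
    omega
  have hsym : ∀ n N : ℕ, 2 * N = (d - 1) * (n * (n + 1)) → ∀ k ≤ N,
      (genPoly n d).coeff (N - k) = (genPoly n d).coeff k := by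
    intro n N hN k hk
    have h1 := hdeg n N hN
    have h2 := Pool.Agent.Lib_MP_97158b_co.P_symm d n k hd1 (by rw [h1]; exact hk)
    rw [h1] at h2
    rw [genPoly_coeff, genPoly_coeff, h2]
  refine ⟨fun n N hN => ⟨?_, fun k => ?_, hsym n N hN⟩, ?_⟩
  · have h1 := hdeg n N hN
    have h0 : (genPoly n d).coeff N ≠ 0 := by
      have h2 := hsym n N hN N le_rfl
      rw [Nat.sub_self] at h2
      rw [← h2, genPoly_coeff, Pool.Agent.Lib_MP_97158b_co.P_coeff_zero d n hd1]
      norm_num
    refine le_antisymm ?_ (Polynomial.le_natDegree_of_ne_zero h0)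
    rw [Polynomial.natDegree_le_iff_coeff_eq_zero]
    intro m hm
    rw [genPoly_coeff, Polynomial.coeff_eq_zero_of_natDegree_lt, Nat.cast_zero]
    exact lt_of_le_of_lt (Pool.Agent.Lib_MP_97158b_co.P_natDegree d n) (by omega)
  · rw [genPoly_coeff, Pool.Agent.Lib_MP_97158b_co.coeff_P d n k hd1]
    rfl
  · obtain ⟨n0, hn0⟩ := Pool.Agent.Lib_MP_97158b_co.final d hd
    refine ⟨n0, fun n hn N hN => ?_⟩
    have h1 := hdeg n N hN
    obtain ⟨g1, g2⟩ := hn0 n hn
    rw [h1] at g1 g2
    have f1 : ∀ k, 2 * (k + 1) ≤ N → (genPoly n d).coeff k ≤ (genPoly n d).coeff (k + 1) := by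
      intro k hk
      rw [genPoly_coeff, genPoly_coeff]
      exact_mod_cast g1 k hk
    have f2 : ∀ k, n ≤ k → 2 * (k + 1) ≤ N → (genPoly n d).coeff k < (genPoly n d).coeff (k + 1) := by
      intro k hk hk2
      rw [genPoly_coeff, genPoly_coeff]
      exact_mod_cast g2 k hk hk2
    refine ⟨f1, f2, fun k hk hk2 => ?_, fun k hk hk2 => ?_⟩
    · have e1 := hsym n N hN (k + 1) (by omega)
      have e2 := hsym n N hN k (by omega)
      by_cases h3 : 2 * (N - k) ≤ N
      · have h4 := f1 (N - (k + 1)) (by omega)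
        have h5 : N - (k + 1) + 1 = N - k := by omega
        rw [h5] at h4
        rw [← e1, ← e2]
        exact h4
      · omega
    · have e1 := hsym n N hN (k + 1) (by omega)
      have e2 := hsym n N hN k (by omega)
      have h4 := f2 (N - (k + 1)) (by omega) (by omega)
      have h5 : N - (k + 1) + 1 = N - k := by omega
      rw [h5] at h4
      rw [← e1, ← e2]
      exact h4

end Pool.Agent.Results.MP_97158b_co.StrictUnimodality
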